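import Pool.Agent.MP_5053af_an.T18.Defs

namespace Pool.Agent.T18

open Finset Filter Topology MeasureTheory

theorem AP1_ee_add (s t : ℝ) : ee (s + t) = ee s * ee t := by
  unfold ee
  rw [← Complex.exp_add]
  congr 1
  push_cast
  ring

theorem AP1_ee_norm (s : ℝ) : ‖ee s‖ = 1 := by
  unfold ee
  exact Complex.norm_exp_ofReal_mul_I _

theorem AP1_ee_nat (n : ℕ) : ee (n : ℝ) = 1 := by
  unfold ee
  have h := Complex.exp_nat_mul_two_pi_mul_I n
  rw [← h]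
  congr 1
  push_cast
  ring

theorem AP1_ee_sub_one (s : ℝ) : ‖ee s - 1‖ ≤ 8 * |s| := by
  unfold ee
  rw [mul_comm]
  refine Real.norm_exp_I_mul_ofReal_sub_one_le.trans ?_
  rw [Real.norm_eq_abs, abs_mul, abs_of_pos (by positivity : (0 : ℝ) < 2 * Real.pi)]
  have h1 := Real.pi_le_four
  have h2 := abs_nonneg s
  nlinarith

theorem AP1_ee_sub (s t : ℝ) : ‖ee (s + t) - ee s‖ ≤ 8 * |t| := by
  have h : ee (s + t) - ee s = ee s * (ee t - 1) := by
    rw [AP1_ee_add]; ring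
  rw [h, norm_mul, AP1_ee_norm, one_mul]
  exact AP1_ee_sub_one t

theorem AP1_ln_pos (b : ℕ) : 0 < ln b := by
  unfold ln
  split_ifs
  · exact one_pos
  · positivity

theorem AP1_Mx_pos (b : ℕ) : 0 < Mx b := by
  unfold Mx
  have := AP1_ln_pos b
  positivity

theorem AP1_row : AP1_s := by
  intro b i y hy hi
  have hM : (0 : ℝ) < Mx b := by exact_mod_cast AP1_Mx_pos b
  have hl : (0 : ℝ) < ln b := by exact_mod_cast AP1_ln_pos b
  set u : ℝ := (dd b : ℝ) * y with hu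
  have hu0 : 0 ≤ u := by positivity
  have hN : ((dd (b + 1) : ℕ) : ℝ) * y = (Mx b : ℝ) * u := by
    rw [hu]; simp only [dd]; push_cast; ring
  rw [hN]
  set N : ℕ := ⌊(Mx b : ℝ) * u⌋₊ with hNd
  have h1 : (N : ℝ) ≤ (Mx b : ℝ) * u := Nat.floor_le (by positivity)
  have h2 : (Mx b : ℝ) * u < (N : ℝ) + 1 := Nat.lt_floor_add_one _
  have h3 : ((N % Mx b : ℕ) : ℝ) + (Mx b : ℝ) * ((N / Mx b : ℕ) : ℝ) = N := by
    exact_mod_cast Nat.mod_add_div N (Mx b)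
  set a : ℝ := ((N % Mx b : ℕ) : ℝ) with ha
  set q : ℕ := N / Mx b with hq
  set δ : ℝ := u - (N : ℝ) / (Mx b : ℝ) with hδ
  have hδ0 : 0 ≤ δ := by
    rw [hδ, sub_nonneg, div_le_iff₀ hM]; linarith
  have hδ1 : δ ≤ 1 / (Mx b : ℝ) := by
    rw [hδ, sub_le_iff_le_add, ← add_div, le_div_iff₀ hM]; linarith
  have hue : u = a / (Mx b : ℝ) + q + δ := by
    rw [hδ, ← h3]; field_simp; ring
  have hterm : ∀ j ∈ range i, ‖ee (((j : ℝ) + 1) * u) - ee (((j : ℝ) + 1) * (a / (Mx b : ℝ)))‖ ≤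
      8 * ((ln b : ℝ) * (1 / (Mx b : ℝ))) := by
    intro j hj
    have hj' : (j : ℝ) + 1 ≤ ln b := by
      have : j + 1 ≤ ln b := by have := mem_range.1 hj; omega
      exact_mod_cast this
    have e1 : ((j : ℝ) + 1) * u =
        (((j : ℝ) + 1) * (a / (Mx b : ℝ)) + ((j : ℝ) + 1) * δ) + (((j + 1) * q : ℕ) : ℝ) := by
      rw [hue]; push_cast; ring
    rw [e1, AP1_ee_add, AP1_ee_nat, mul_one]
    refine (AP1_ee_sub _ _).trans ?_
    rw [abs_of_nonneg (by positivity)]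
    have : ((j : ℝ) + 1) * δ ≤ (ln b : ℝ) * (1 / (Mx b : ℝ)) :=
      mul_le_mul hj' hδ1 hδ0 hl.le
    linarith
  unfold DG DD
  rw [← sum_sub_distrib]
  refine (norm_sum_le _ _).trans ((sum_le_sum hterm).trans ?_)
  rw [sum_const, card_range, nsmul_eq_mul]
  have hi' : (i : ℝ) ≤ ln b := by exact_mod_cast hi
  have hMx : (Mx b : ℝ) = 8 * 2 ^ b * (ln b : ℝ) ^ 2 := by
    unfold Mx; push_cast; ring
  calc (i : ℝ) * (8 * ((ln b : ℝ) * (1 / (Mx b : ℝ))))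
      ≤ (ln b : ℝ) * (8 * ((ln b : ℝ) * (1 / (Mx b : ℝ)))) :=
        mul_le_mul_of_nonneg_right hi' (by positivity)
    _ = (1 / 2) ^ b := by
        rw [hMx, one_div_pow]; field_simp

end Pool.Agent.T18
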