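import Pool.Agent.MP_5053af_an.T18.Defs

namespace Pool.Agent.T18

open Finset Filter Topology MeasureTheory

theorem APP_Mx_pos (b : ℕ) : 0 < Mx b := by
  have h : 0 < ln b := by
    unfold ln
    split_ifs
    · exact one_pos
    · positivity
  unfold Mx
  positivity

theorem APP_floor (b : ℕ) (y : ℝ) :
    ⌊(dd (b + 1) : ℝ) * y⌋₊ / Mx b = ⌊(dd b : ℝ) * y⌋₊ := by
  have hM : (0 : ℝ) < Mx b := by exact_mod_cast APP_Mx_pos b
  rw [← Nat.floor_div_natCast]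
  have h : (dd (b + 1) : ℝ) * y / (Mx b : ℝ) = (dd b : ℝ) * y := by
    simp only [dd]; push_cast; field_simp
  rw [h]

theorem APP_ind (h1 : AP1_s) (y : ℝ) (hy : 0 ≤ y) (b : ℕ) :
    ‖TT b y - ZZ b ⌊(dd b : ℝ) * y⌋₊‖ ≤ 2 - 2 * (1 / 2) ^ b := by
  induction b with
  | zero => simp [TT, ZZ]
  | succ b ih =>
    have h2 := h1 b (ln b) y hy le_rfl
    have e : TT (b + 1) y - ZZ (b + 1) ⌊(dd (b + 1) : ℝ) * y⌋₊ =
        (TT b y - ZZ b ⌊(dd b : ℝ) * y⌋₊) + (DD (ln b) ((dd b : ℝ) * y) -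
          DG (Mx b) (ln b) (⌊(dd (b + 1) : ℝ) * y⌋₊ % Mx b)) := by
      rw [ZZ, APP_floor]
      unfold TT
      rw [sum_range_succ]
      ring
    rw [e]
    refine (norm_add_le _ _).trans ?_
    rw [pow_succ]
    linarith

theorem APP_row (h1 : AP1_s) : APP_s := by
  intro b i y hy hi
  have h2 := h1 b i y hy hi
  have h3 := APP_ind h1 y hy b
  rw [APP_floor]
  have e : TT b y + DD i ((dd b : ℝ) * y) - (ZZ b ⌊(dd b : ℝ) * y⌋₊ +
      DG (Mx b) i (⌊(dd (b + 1) : ℝ) * y⌋₊ % Mx b)) =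
        (TT b y - ZZ b ⌊(dd b : ℝ) * y⌋₊) + (DD i ((dd b : ℝ) * y) -
          DG (Mx b) i (⌊(dd (b + 1) : ℝ) * y⌋₊ % Mx b)) := by ring
  rw [e]
  refine (norm_add_le _ _).trans ?_
  have h4 : (0 : ℝ) < (1 / 2) ^ b := by positivity
  linarith

end Pool.Agent.T18
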