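import Pool.Agent.MP_5053af_an.T18.Defs

namespace Pool.Agent.T18

open Finset Filter Topology MeasureTheory

theorem bc_ln (b : ℕ) : 0 < ln b := by
  unfold ln
  split_ifs <;> positivity

theorem bc_dd (b : ℕ) : 0 < dd b := by
  induction b with
  | zero => exact Nat.one_pos
  | succ b ih =>
    have h := bc_ln b
    show 0 < dd b * (8 * 2 ^ b * ln b ^ 2)
    positivity

theorem bc_row (hB : BLK_s) (h1 : SU1_s) (h2 : SU2_s) (hA : APP_s) (hM : MEA_s) : BC_s := by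
  have hU : ∀ s, 0 ≤ UU s := fun s => by unfold UU; positivity
  have hs := h2 UU hU h1
  let E : ℕ → Set ℝ := fun b => {y | 2 ≤ Nat.log 2 b ∧ y ∈ Set.Ico (0 : ℝ) 1 ∧
    ∃ i ≤ ln b, ‖ZZ b (⌊(dd (b + 1) : ℝ) * y⌋₊ / Mx b) +
      DG (Mx b) i (⌊(dd (b + 1) : ℝ) * y⌋₊ % Mx b)‖ ≤ (Nat.log 2 b : ℝ)}
  have hE : ∀ b, volume (E b) ≤ ENNReal.ofReal (UU (Nat.log 2 b)) := by
    intro b
    by_cases hb : 2 ≤ Nat.log 2 b
    · refine le_trans (measure_mono fun y hy => ?_) ((hM (dd (b + 1)) (fun N => ∃ i ≤ ln b,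
        ‖ZZ b (N / Mx b) + DG (Mx b) i (N % Mx b)‖ ≤ (Nat.log 2 b : ℝ)) (bc_dd _)).trans
        (ENNReal.ofReal_le_ofReal (hB b hb)))
      exact hy.2
    · have : E b = ∅ := Set.eq_empty_of_forall_notMem fun y hy => hb hy.1
      rw [this, measure_empty]
      exact bot_le
  have hsum : ∑' b, volume (E b) ≠ ⊤ :=
    ne_top_of_le_ne_top hs.tsum_ofReal_ne_top (ENNReal.tsum_le_tsum hE)
  filter_upwards [ae_eventually_notMem hsum] with y hy hy0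
  filter_upwards [hy, eventually_ge_atTop 4] with b hb hb4 i hi
  have hl : 2 ≤ Nat.log 2 b := Nat.le_log_of_pow_le (by norm_num) hb4
  have h3 : (Nat.log 2 b : ℝ) < ‖ZZ b (⌊(dd (b + 1) : ℝ) * y⌋₊ / Mx b) +
      DG (Mx b) i (⌊(dd (b + 1) : ℝ) * y⌋₊ % Mx b)‖ :=
    lt_of_not_ge fun h => hb ⟨hl, hy0, i, hi, h⟩
  have h4 := hA b i y hy0.1 hi
  have h5 := norm_sub_norm_le (ZZ b (⌊(dd (b + 1) : ℝ) * y⌋₊ / Mx b) +
      DG (Mx b) i (⌊(dd (b + 1) : ℝ) * y⌋₊ % Mx b)) (TT b y + DD i ((dd b : ℝ) * y))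
  rw [norm_sub_rev] at h5
  linarith

end Pool.Agent.T18
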