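import Pool.Agent.MP_5053af_an.T18.Defs

namespace Pool.Agent.T18

open Finset Filter Topology MeasureTheory

theorem BLK_ln (b : ℕ) : 0 < ln b ∧ ln b ≤ (Nat.log 2 b + 1) ^ 12 := by
  have h : 0 < (Nat.log 2 b + 1) ^ 12 := by positivity
  unfold ln
  split_ifs
  · exact ⟨one_pos, h⟩
  · exact ⟨h, le_rfl⟩

theorem BLK_Mx (b : ℕ) : 0 < Mx b ∧ ln b ≤ Mx b := by
  have h := (BLK_ln b).1
  have h2 : 0 < 2 ^ b := by positivity
  have h3 : ln b ≤ ln b ^ 2 := by nlinarith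
  unfold Mx
  refine ⟨by positivity, h3.trans (Nat.le_mul_of_pos_left _ (by positivity))⟩

theorem BLK_dd (b : ℕ) : 0 < dd b := by
  induction b with
  | zero => exact one_pos
  | succ b ih => exact Nat.mul_pos ih (BLK_Mx b).1

theorem BLK_mono (n : ℕ) (p q : ℕ → Prop) (h : ∀ N, p N → q N) : fr n p ≤ fr n q := by
  classical
  unfold fr
  refine div_le_div_of_nonneg_right ?_ (Nat.cast_nonneg n)
  refine Nat.cast_le.2 (Finset.card_le_card fun N hN => ?_)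
  simp only [mem_filter] at hN ⊢
  exact ⟨hN.1, h N hN.2⟩

theorem blk_row (hCHI : CHI_s) (hESS : ESS_s) (hDIR : DIR_s) (hHIT : HIT_s) : BLK_s := by
  intro b hs
  have hb : 2 ^ Nat.log 2 b ≤ b := by
    refine Nat.pow_log_le_self 2 ?_
    rintro rfl
    simp at hs
  have hl := (BLK_ln b).2
  generalize Nat.log 2 b = s at hs hb hl ⊢
  have hs2 : (2 : ℝ) ≤ s := by exact_mod_cast hs
  have hs0 : (0 : ℝ) < s := by linarith
  have hE := fun (w : ℂ) (σ : ℝ) (hσ : 0 < σ) =>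
    hESS (dd b) (ZZ b) w σ (2 ^ s * (s : ℝ) ^ 12 / 40) (2 ^ s / 40) (1 / (s : ℝ) ^ 12) (BLK_dd b) hσ
      (by positivity) (by positivity) (by positivity)
      (fun t ht => (hCHI b s t hs hb).2 ht) (fun t ht => (hCHI b s t hs hb).1 ht)
  have e0 : (2 : ℝ) ^ s / 40 * (1 / (s : ℝ) ^ 12) ^ 2 = 2 ^ s / (40 * (s : ℝ) ^ 24) := by
    field_simp
  have e1 : (2 * (s : ℝ) ^ 4) ^ 2 / (2 ^ s * (s : ℝ) ^ 12 / 40) = 160 / (2 ^ s * (s : ℝ) ^ 4) := by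
    field_simp
    norm_num
  have e2 : (2 * (s : ℝ) ^ 4) ^ 2 / 4 = (s : ℝ) ^ 8 := by ring
  have e3 : (s : ℝ) ^ 2 / (2 ^ s * (s : ℝ) ^ 12 / 40) = 40 / (2 ^ s * (s : ℝ) ^ 10) := by
    field_simp
  have h1 := hE 0 (2 * (s : ℝ) ^ 4) (by positivity)
  rw [e0, e1, e2] at h1
  have h2 := fun w => hE w s hs0
  rw [e0, e3] at h2
  have hs4 : (s : ℝ) ≤ (s : ℝ) ^ 4 := le_self_pow₀ (by linarith) (by norm_num)
  have h1' := (BLK_mono (dd b) (fun N => ‖ZZ b N - 0‖ ≤ (s : ℝ) + (s : ℝ) ^ 4)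
    (fun N => ‖ZZ b N - 0‖ ≤ 2 * (s : ℝ) ^ 4) (fun N hN => by linarith)).trans h1
  have h3 := hDIR (ln b) (Mx b) ((s : ℝ) ^ 4) (by positivity) (BLK_Mx b).1 (BLK_Mx b).2
  have h := hHIT (dd b) (Mx b) (ln b) (ZZ b) (DG (Mx b)) s ((s : ℝ) ^ 4) _ _ _ (BLK_dd b)
    (BLK_Mx b).1 h1' h2 h3
  refine h.trans ?_
  unfold UU
  have hl' : ((ln b : ℕ) : ℝ) ≤ ((s : ℝ) + 1) ^ 12 := by exact_mod_cast hl
  gcongr

end Pool.Agent.T18
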