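import Pool.Agent.MP_5053af_an.T18.Defs

namespace Pool.Agent.T18

open Finset Filter Topology MeasureTheory

theorem dir_norm (y : ℝ) : ‖ee y‖ = 1 := by
  unfold ee
  exact Complex.norm_exp_ofReal_mul_I _

theorem dir_add (x y : ℝ) : ee (x + y) = ee x * ee y := by
  unfold ee
  rw [← Complex.exp_add]
  congr 1
  push_cast
  ring

theorem dir_tel (i : ℕ) (y : ℝ) : DD i y * (ee y - 1) = ee (((i : ℝ) + 1) * y) - ee y := by
  induction i with
  | zero => simp [DD]
  | succ n ih =>
    have h : DD (n + 1) y = DD n y + ee (((n : ℝ) + 1) * y) := by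
      unfold DD
      rw [sum_range_succ]
    have h2 : ee ((((n + 1 : ℕ) : ℝ) + 1) * y) = ee (((n : ℝ) + 1) * y) * ee y := by
      rw [← dir_add]
      congr 1
      push_cast
      ring
    rw [h, h2, add_mul, ih]
    ring

theorem dir_triv (i : ℕ) (y : ℝ) : ‖DD i y‖ ≤ i := by
  unfold DD
  refine (norm_sum_le _ _).trans ?_
  simp [dir_norm]

theorem dir_sin (i : ℕ) (y : ℝ) : ‖DD i y‖ * |Real.sin (Real.pi * y)| ≤ 1 := by
  have h1 : ‖ee y - 1‖ = 2 * |Real.sin (Real.pi * y)| := by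
    unfold ee
    rw [mul_comm _ Complex.I, Complex.norm_exp_I_mul_ofReal_sub_one, Real.norm_eq_abs, abs_mul,
      abs_two, show 2 * Real.pi * y / 2 = Real.pi * y by ring]
  have h2 : ‖DD i y‖ * ‖ee y - 1‖ ≤ 2 := by
    rw [← norm_mul, dir_tel]
    refine (norm_sub_le _ _).trans ?_
    rw [dir_norm, dir_norm]
    norm_num
  rw [h1] at h2
  linarith

theorem dir_low (y : ℝ) (h0 : 0 ≤ y) (h1 : y ≤ 1 / 2) : 2 * y ≤ |Real.sin (Real.pi * y)| := by
  have h := Real.le_sin_mul (x := 2 * y) (by linarith) (by linarith)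
  rw [show Real.pi / 2 * (2 * y) = Real.pi * y by ring] at h
  exact h.trans (le_abs_self _)

theorem dir_main (l M : ℕ) (ρ : ℝ) (hρ : 0 < ρ) (hM : 0 < M) (hl : l ≤ M) (S : Finset ℕ)
    (hS : ∀ a ∈ S, a < M ∧ ∃ i ≤ l, ρ < ‖DG M i a‖) : (#S : ℝ) / M ≤ 2 / ρ := by
  have hMr : (0 : ℝ) < M := by exact_mod_cast hM
  by_cases hlr : (l : ℝ) ≤ ρ
  · have : S = ∅ := by
      refine eq_empty_of_forall_notMem fun a ha => ?_
      obtain ⟨_, i, hi, h⟩ := hS a ha
      have h1 := dir_triv i ((a : ℝ) / M)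
      have h2 : (i : ℝ) ≤ l := by exact_mod_cast hi
      unfold DG at h
      linarith
    rw [this]
    simp only [card_empty, Nat.cast_zero, zero_div]
    positivity
  · have hlM : (l : ℝ) ≤ M := by exact_mod_cast hl
    have hρM : ρ < M := by linarith [not_le.1 hlr]
    set X : ℝ := M / (2 * ρ) with hX
    have hXp : 0 < X := by positivity
    have hXe : X * (2 * ρ) = M := by rw [hX]; field_simp
    have hc : 1 ≤ ⌈X⌉₊ := Nat.ceil_pos.2 hXp
    have hc2 : (⌈X⌉₊ : ℝ) < X + 1 := Nat.ceil_lt_add_one hXp.le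
    have hsub : S ⊆
        range ⌈X⌉₊ ∪ (Ioo 0 ⌈X⌉₊).image fun j => M - j := by
      intro a ha
      obtain ⟨haM, i, _, h⟩ := hS a ha
      have haR : (a : ℝ) < M := by exact_mod_cast haM
      have ha0 : (0 : ℝ) ≤ a := Nat.cast_nonneg a
      unfold DG at h
      have hs := dir_sin i ((a : ℝ) / M)
      have key : ∀ u : ℝ, 0 ≤ u → 2 * (u / M) ≤ |Real.sin (Real.pi * ((a : ℝ) / M))| → u < X := by
        intro u hu h2
        by_contra hcon
        have hu2 : X ≤ u := not_lt.1 hcon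
        have h3 : 1 ≤ ρ * (2 * (u / M)) := by
          have : ρ * (2 * (u / M)) = u * (2 * ρ) / M := by ring
          rw [this, le_div_iff₀ hMr]
          nlinarith
        have h4 : 0 < 2 * (u / M) := by
          have : 0 < u := lt_of_lt_of_le hXp hu2
          positivity
        nlinarith [abs_nonneg (Real.sin (Real.pi * ((a : ℝ) / M)))]
      by_cases hh : (a : ℝ) / M ≤ 1 / 2
      · refine mem_union_left _ (mem_range.2 (Nat.lt_ceil.2 ?_))
        exact key a ha0 (dir_low _ (by positivity) hh)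
      · refine mem_union_right _ (mem_image.2 ⟨M - a, mem_Ioo.2 ⟨by omega, Nat.lt_ceil.2 ?_⟩,
          by omega⟩)
        rw [Nat.cast_sub haM.le]
        refine key _ (by linarith) ?_
        have e1 : ((M : ℝ) - a) / M = 1 - (a : ℝ) / M := by field_simp
        have e2 : (a : ℝ) / M < 1 := (div_lt_one hMr).2 haR
        have h5 := dir_low (1 - (a : ℝ) / M) (by linarith) (by linarith [not_le.1 hh])
        rw [show Real.pi * (1 - (a : ℝ) / M) = Real.pi - Real.pi * ((a : ℝ) / M) by ring,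
          Real.sin_pi_sub] at h5
        rw [e1]
        exact h5
    have hcard : #S + 1 ≤ 2 * ⌈X⌉₊ := by
      have h1 := (card_le_card hsub).trans (card_union_le _ _)
      have h2 := card_image_le (s := Ioo 0 ⌈X⌉₊) (f := fun j => M - j)
      rw [Nat.card_Ioo] at h2
      rw [card_range] at h1
      omega
    have hcr : (#S : ℝ) + 1 ≤
        2 * (⌈X⌉₊ : ℝ) := by exact_mod_cast hcard
    rw [div_le_div_iff₀ hMr hρ]
    have h6 : (#S : ℝ) * ρ ≤ (2 * X + 1) * ρ :=
      mul_le_mul_of_nonneg_right (by linarith) hρ.le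
    nlinarith

theorem dir_row : DIR_s := by
  intro l M ρ hρ hM hl
  unfold fr
  refine dir_main l M ρ hρ hM hl _ fun a ha => ?_
  have h := (@mem_filter _ _ (fun _ => Classical.propDecidable _) _ _).1 ha
  exact ⟨mem_range.1 h.1, h.2⟩

end Pool.Agent.T18
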