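import Mathlib

/-! Statements of the rows of campaign h18t: planar transience below Hadamard gaps. -/

namespace Pool.Agent.T18

open Finset Filter Topology MeasureTheory

noncomputable section

/-- Length of block `b`. -/
def ln (b : ℕ) : ℕ := if b % 2 = 0 then 1 else (Nat.log 2 b + 1) ^ 12

/-- Radix of block `b`. -/
def Mx (b : ℕ) : ℕ := 8 * 2 ^ b * ln b ^ 2

/-- Base frequency of block `b`. -/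
def dd : ℕ → ℕ
  | 0 => 1
  | b + 1 => dd b * Mx b

def ee (y : ℝ) : ℂ := Complex.exp (((2 * Real.pi * y : ℝ) : ℂ) * Complex.I)

def DD (i : ℕ) (y : ℝ) : ℂ := ∑ j ∈ range i, ee (((j : ℝ) + 1) * y)

/-- `DD` on the grid of mesh `1 / M`. -/
def DG (M i a : ℕ) : ℂ := DD i ((a : ℝ) / M)

def TT (b : ℕ) (y : ℝ) : ℂ := ∑ c ∈ range b, DD (ln c) ((dd c : ℝ) * y)

/-- The rounded sum of the first `b` blocks, as a function of `N = ⌊dd b * y⌋`. -/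
def ZZ : ℕ → ℕ → ℂ
  | 0, _ => 0
  | b + 1, N => ZZ b (N / Mx b) + DG (Mx b) (ln b) (N % Mx b)

def ip (t z : ℂ) : ℝ := t.re * z.re + t.im * z.im

/-- Characteristic function of `z` on `range n`. -/
def ch (n : ℕ) (z : ℕ → ℂ) (t : ℂ) : ℂ :=
  (∑ N ∈ range n, Complex.exp ((ip t (z N) : ℂ) * Complex.I)) / n

open Classical in
/-- Proportion of `range n` where `p` holds. -/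
def fr (n : ℕ) (p : ℕ → Prop) : ℝ := (#{N ∈ range n | p N} : ℝ) / n

def UU (s : ℕ) : ℝ :=
  (160 / (2 ^ s * (s : ℝ) ^ 4) + 2 * Real.exp (-(2 ^ s / (40 * (s : ℝ) ^ 24))) +
      4 * Real.exp (-((s : ℝ) ^ 8))) +
    2 / (s : ℝ) ^ 4 * (((s : ℝ) + 1) ^ 12 + 1) *
      (40 / (2 ^ s * (s : ℝ) ^ 10) + 2 * Real.exp (-(2 ^ s / (40 * (s : ℝ) ^ 24))) +
        4 * Real.exp (-((s : ℝ) ^ 2 / 4)))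

def ORT_s : Prop := ∀ (l M : ℕ) (t : ℂ), 2 * l < M →
  ∑ a ∈ range M, ip t (DG M l a) = 0 ∧
    ∑ a ∈ range M, ip t (DG M l a) ^ 2 = (M : ℝ) * l * ‖t‖ ^ 2 / 2

def PSI_s : Prop := ∀ (l M : ℕ) (t : ℂ), 2 * l < M → ‖t‖ * l ≤ 1 →
  ‖ch M (DG M l) t‖ ≤ Real.exp (-((l : ℝ) * ‖t‖ ^ 2 / 10))

def PRD_s : Prop := ∀ (b : ℕ) (t : ℂ),
  ch (dd b) (ZZ b) t = ∏ c ∈ range b, ch (Mx c) (DG (Mx c) (ln c)) t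

def CHI_s : Prop := ∀ (b s : ℕ) (t : ℂ), 2 ≤ s → 2 ^ s ≤ b →
  (‖t‖ ≤ 1 → ‖ch (dd b) (ZZ b) t‖ ≤ Real.exp (-(2 ^ s / 40 * ‖t‖ ^ 2))) ∧
    (‖t‖ ≤ 1 / (s : ℝ) ^ 12 →
      ‖ch (dd b) (ZZ b) t‖ ≤ Real.exp (-(2 ^ s * (s : ℝ) ^ 12 / 40 * ‖t‖ ^ 2)))

def ES1_s : Prop := ∀ (n : ℕ) (z : ℕ → ℂ) (w : ℂ) (σ : ℝ), 0 < n → 0 < σ →
  fr n (fun N => ‖z N - w‖ ≤ σ) ≤
    σ ^ 2 / Real.pi * ∫ t : ℂ, ‖ch n z t‖ * Real.exp (-(σ ^ 2 / 2 * ‖t‖ ^ 2))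

def ESS_s : Prop := ∀ (n : ℕ) (z : ℕ → ℂ) (w : ℂ) (σ A B η : ℝ), 0 < n → 0 < σ → 0 < A → 0 ≤ B →
  0 ≤ η → (∀ t : ℂ, ‖t‖ ≤ η → ‖ch n z t‖ ≤ Real.exp (-(A * ‖t‖ ^ 2))) →
  (∀ t : ℂ, ‖t‖ ≤ 1 → ‖ch n z t‖ ≤ Real.exp (-(B * ‖t‖ ^ 2))) →
    fr n (fun N => ‖z N - w‖ ≤ σ) ≤
      σ ^ 2 / A + 2 * Real.exp (-(B * η ^ 2)) + 4 * Real.exp (-(σ ^ 2 / 4))

def DIR_s : Prop := ∀ (l M : ℕ) (ρ : ℝ), 0 < ρ → 0 < M → l ≤ M →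
  fr M (fun a => ∃ i ≤ l, ρ < ‖DG M i a‖) ≤ 2 / ρ

def HIT_s : Prop := ∀ (n M l : ℕ) (z : ℕ → ℂ) (v : ℕ → ℕ → ℂ) (R ρ Q₁ Q₂ β : ℝ), 0 < n → 0 < M →
  fr n (fun N => ‖z N - 0‖ ≤ R + ρ) ≤ Q₁ → (∀ w : ℂ, fr n (fun N => ‖z N - w‖ ≤ R) ≤ Q₂) →
  fr M (fun a => ∃ i ≤ l, ρ < ‖v i a‖) ≤ β →
    fr (n * M) (fun N => ∃ i ≤ l, ‖z (N / M) + v i (N % M)‖ ≤ R) ≤ Q₁ + β * ((l : ℝ) + 1) * Q₂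

def BLK_s : Prop := ∀ b : ℕ, 2 ≤ Nat.log 2 b →
  fr (dd (b + 1)) (fun N => ∃ i ≤ ln b,
    ‖ZZ b (N / Mx b) + DG (Mx b) i (N % Mx b)‖ ≤ (Nat.log 2 b : ℝ)) ≤ UU (Nat.log 2 b)

def SU1_s : Prop := Summable fun s : ℕ => 2 ^ s * UU s

def SU2_s : Prop := ∀ U : ℕ → ℝ, (∀ s, 0 ≤ U s) → (Summable fun s : ℕ => 2 ^ s * U s) →
  Summable fun b : ℕ => U (Nat.log 2 b)

def AP1_s : Prop := ∀ (b i : ℕ) (y : ℝ), 0 ≤ y → i ≤ ln b →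
  ‖DD i ((dd b : ℝ) * y) - DG (Mx b) i (⌊(dd (b + 1) : ℝ) * y⌋₊ % Mx b)‖ ≤ (1 / 2) ^ b

def APP_s : Prop := ∀ (b i : ℕ) (y : ℝ), 0 ≤ y → i ≤ ln b →
  ‖TT b y + DD i ((dd b : ℝ) * y) - (ZZ b (⌊(dd (b + 1) : ℝ) * y⌋₊ / Mx b) +
    DG (Mx b) i (⌊(dd (b + 1) : ℝ) * y⌋₊ % Mx b))‖ ≤ 2

def MEA_s : Prop := ∀ (n : ℕ) (p : ℕ → Prop), 0 < n →
  volume {y : ℝ | y ∈ Set.Ico (0 : ℝ) 1 ∧ p ⌊(n : ℝ) * y⌋₊} ≤ ENNReal.ofReal (fr n p)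

def BC_s : Prop := ∀ᵐ y : ℝ, y ∈ Set.Ico (0 : ℝ) 1 → ∀ᶠ b in atTop, ∀ i ≤ ln b,
  (Nat.log 2 b : ℝ) - 2 < ‖TT b y + DD i ((dd b : ℝ) * y)‖

def SEQ_s : Prop := ∃ n b i : ℕ → ℕ, (∀ k, 0 < n k) ∧
  (∀ k, (1 + 1 / ((Nat.log 2 k : ℝ) + 1) ^ 12) * n k ≤ n (k + 1)) ∧ Tendsto b atTop atTop ∧
    ∀ m, i m ≤ ln (b m) ∧ ∀ y : ℝ,
      ∑ k ∈ range m, ee ((n k : ℝ) * y) = TT (b m) y + DD (i m) ((dd (b m) : ℝ) * y)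

def SCL_s : Prop := ∀ p : ℝ → Prop, (∀ (y : ℝ) (q : ℤ), p y → p (y + q)) →
  (∀ᵐ y : ℝ, y ∈ Set.Ico (0 : ℝ) 1 → p y) → ∀ᵐ x : ℝ, p (x / (2 * Real.pi))

def TOP_s : Prop := ∃ n : ℕ → ℕ, (∀ k, 0 < n k) ∧
  (∀ k, (1 + 1 / ((Nat.log 2 k : ℝ) + 1) ^ 12) * n k ≤ n (k + 1)) ∧ ∀ᵐ x : ℝ,
    Tendsto (fun m => ‖∑ k ∈ range m, Complex.exp (Complex.I * (n k : ℂ) * (x : ℂ))‖) atTop atTop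

end

end Pool.Agent.T18
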