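import Pool.Agent.MP_5053af_an.T18.Defs

namespace Pool.Agent.T18

open Finset Filter Topology MeasureTheory

theorem es1_eq (σ : ℝ) (u t : ℂ) :
    -((σ ^ 2 / 2 : ℝ) : ℂ) * (‖t‖ : ℂ) ^ 2 + Complex.I * ((inner ℝ u t : ℝ) : ℂ) =
      ((-(σ ^ 2 / 2 * ‖t‖ ^ 2) : ℝ) : ℂ) + (ip t u : ℂ) * Complex.I := by
  have : (inner ℝ u t : ℝ) = ip t u := by
    rw [Complex.inner]
    simp [ip]
  rw [this]
  push_cast
  ring

theorem es1_int {σ : ℝ} (hσ : 0 < σ) (u : ℂ) : Integrable fun t : ℂ =>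
    Complex.exp (((-(σ ^ 2 / 2 * ‖t‖ ^ 2) : ℝ) : ℂ) + (ip t u : ℂ) * Complex.I) := by
  have h := GaussianFourier.integrable_cexp_neg_mul_sq_norm_add (V := ℂ)
    (b := ((σ ^ 2 / 2 : ℝ) : ℂ)) (by rw [Complex.ofReal_re]; positivity) Complex.I u
  simpa only [es1_eq] using h

theorem es1_val {σ : ℝ} (hσ : 0 < σ) (u : ℂ) :
    ∫ t : ℂ, Complex.exp (((-(σ ^ 2 / 2 * ‖t‖ ^ 2) : ℝ) : ℂ) + (ip t u : ℂ) * Complex.I) =
      ((2 * Real.pi / σ ^ 2 * Real.exp (-(‖u‖ ^ 2 / (2 * σ ^ 2))) : ℝ) : ℂ) := by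
  have h := GaussianFourier.integral_cexp_neg_mul_sq_norm_add (V := ℂ)
    (b := ((σ ^ 2 / 2 : ℝ) : ℂ)) (by rw [Complex.ofReal_re]; positivity) Complex.I u
  simp only [es1_eq] at h
  have hs : (σ : ℂ) ≠ 0 := by exact_mod_cast hσ.ne'
  rw [h, Complex.finrank_real_complex, show ((2 : ℕ) : ℂ) / 2 = 1 by norm_num, Complex.cpow_one,
    Complex.I_sq]
  push_cast
  congr 1
  · field_simp
  · congr 1
    field_simp
    ring

theorem es1_row : ES1_s := by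
  classical
  intro n z w σ hn hσ
  have hn' : (0 : ℝ) < n := by exact_mod_cast hn
  have hπ := Real.pi_pos
  set F : ℕ → ℂ → ℂ := fun N t =>
    Complex.exp (((-(σ ^ 2 / 2 * ‖t‖ ^ 2) : ℝ) : ℂ) + (ip t (z N - w) : ℂ) * Complex.I) with hF
  have e1 : ∫ t : ℂ, ∑ N ∈ range n, F N t = ((∑ N ∈ range n,
      2 * Real.pi / σ ^ 2 * Real.exp (-(‖z N - w‖ ^ 2 / (2 * σ ^ 2))) : ℝ) : ℂ) := by
    rw [integral_finsetSum _ fun N _ => es1_int hσ (z N - w), Complex.ofReal_sum]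
    exact sum_congr rfl fun N _ => es1_val hσ _
  have e2 : ∀ t : ℂ, ‖∑ N ∈ range n, F N t‖ =
      n * (‖ch n z t‖ * Real.exp (-(σ ^ 2 / 2 * ‖t‖ ^ 2))) := by
    intro t
    have a : ∀ N, F N t = Complex.exp (((-(σ ^ 2 / 2 * ‖t‖ ^ 2) : ℝ) : ℂ)) *
        Complex.exp (((-ip t w : ℝ) : ℂ) * Complex.I) *
          Complex.exp ((ip t (z N) : ℂ) * Complex.I) := by
      intro N
      rw [← Complex.exp_add, ← Complex.exp_add, hF]
      have : ip t (z N - w) = -ip t w + ip t (z N) := by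
        simp only [ip, Complex.sub_re, Complex.sub_im]
        ring
      simp only [this]
      congr 1
      push_cast
      ring
    simp only [a]
    rw [← mul_sum, norm_mul, norm_mul, Complex.norm_exp_ofReal, Complex.norm_exp_ofReal_mul_I, ch,
      norm_div, Complex.norm_natCast]
    generalize ‖∑ x ∈ range n, Complex.exp ((ip t (z x) : ℂ) * Complex.I)‖ = y
    field_simp
  have e3 := norm_integral_le_integral_norm (μ := (volume : Measure ℂ))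
    fun t : ℂ => ∑ N ∈ range n, F N t
  simp only [e2] at e3
  rw [e1, integral_const_mul, Complex.norm_real, Real.norm_eq_abs] at e3
  have e4 := (le_abs_self _).trans e3
  have e5 : (#{N ∈ range n | ‖z N - w‖ ≤ σ} : ℝ) * (Real.pi / σ ^ 2) ≤ ∑ N ∈ range n,
      2 * Real.pi / σ ^ 2 * Real.exp (-(‖z N - w‖ ^ 2 / (2 * σ ^ 2))) := by
    refine le_trans ?_ (sum_le_sum_of_subset_of_nonneg
      (filter_subset (fun N => ‖z N - w‖ ≤ σ) _) fun _ _ _ => by positivity)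
    rw [← nsmul_eq_mul]
    refine card_nsmul_le_sum _ _ _ fun N hN => ?_
    have b1 : ‖z N - w‖ ^ 2 / (2 * σ ^ 2) ≤ 1 / 2 := by
      rw [div_le_iff₀ (by positivity)]
      have := pow_le_pow_left₀ (norm_nonneg _) (mem_filter.1 hN).2 2
      linarith
    have b2 := Real.add_one_le_exp (-(‖z N - w‖ ^ 2 / (2 * σ ^ 2)))
    calc Real.pi / σ ^ 2 = 2 * Real.pi / σ ^ 2 * (1 / 2) := by ring
      _ ≤ _ := mul_le_mul_of_nonneg_left (by linarith) (by positivity)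
  have e6 := e5.trans e4
  have e7 : fr n (fun N => ‖z N - w‖ ≤ σ) = (#{N ∈ range n | ‖z N - w‖ ≤ σ} : ℝ) / n := by
    unfold fr
    congr
  rw [e7, div_le_iff₀ hn']
  have e8 := mul_le_mul_of_nonneg_left e6 (show 0 ≤ σ ^ 2 / Real.pi by positivity)
  calc (#{N ∈ range n | ‖z N - w‖ ≤ σ} : ℝ)
      = σ ^ 2 / Real.pi * (#{N ∈ range n | ‖z N - w‖ ≤ σ} * (Real.pi / σ ^ 2)) := by field_simp
    _ ≤ _ := e8
    _ = _ := by ring

end Pool.Agent.T18
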