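import Pool.Agent.MP_5053af_an.T18.Defs

/-! Row ESS of campaign h18t. -/

namespace Pool.Agent.T18

open Finset Filter Topology MeasureTheory

theorem ess_le_one (n : ℕ) (z : ℕ → ℂ) (t : ℂ) : ‖ch n z t‖ ≤ 1 := by
  unfold ch
  rw [norm_div, Complex.norm_natCast]
  refine div_le_one_of_le₀ ((norm_sum_le _ _).trans ?_) (Nat.cast_nonneg n)
  simp [Complex.norm_exp_ofReal_mul_I]

theorem ess_gauss (b : ℝ) (hb : 0 < b) : ∫ t : ℂ, Real.exp (-(b * ‖t‖ ^ 2)) = Real.pi / b := by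
  have h := GaussianFourier.integral_rexp_neg_mul_sq_norm (V := ℂ) hb
  simp only [neg_mul] at h
  rw [h, Complex.finrank_real_complex]
  norm_num

theorem ess_int (b : ℝ) (hb : 0 < b) : Integrable fun t : ℂ => Real.exp (-(b * ‖t‖ ^ 2)) := by
  refine Integrable.of_integral_ne_zero ?_
  rw [ess_gauss b hb]
  exact (div_pos Real.pi_pos hb).ne'

theorem ess_row (h1 : ES1_s) : ESS_s := by
  intro n z w σ A B η hn hσ hA hB hη hs hm
  refine (h1 n z w σ hn hσ).trans ?_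
  have h2 : 0 < σ ^ 2 / 2 := by positivity
  have h4 : 0 < σ ^ 2 / 4 := by positivity
  have hpt : ∀ t : ℂ, ‖ch n z t‖ * Real.exp (-(σ ^ 2 / 2 * ‖t‖ ^ 2)) ≤
      Real.exp (-(A * ‖t‖ ^ 2)) + Real.exp (-(B * η ^ 2)) * Real.exp (-(σ ^ 2 / 2 * ‖t‖ ^ 2)) +
        Real.exp (-(σ ^ 2 / 4)) * Real.exp (-(σ ^ 2 / 4 * ‖t‖ ^ 2)) := by
    intro t
    have p1 := Real.exp_pos (-(A * ‖t‖ ^ 2))
    have p2 := Real.exp_pos (-(σ ^ 2 / 2 * ‖t‖ ^ 2))
    have p3 := mul_pos (Real.exp_pos (-(B * η ^ 2))) p2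
    have p4 := mul_pos (Real.exp_pos (-(σ ^ 2 / 4))) (Real.exp_pos (-(σ ^ 2 / 4 * ‖t‖ ^ 2)))
    by_cases c1 : ‖t‖ ≤ η
    · have e1 : Real.exp (-(σ ^ 2 / 2 * ‖t‖ ^ 2)) ≤ 1 :=
        Real.exp_le_one_iff.2 (neg_nonpos.2 (by positivity))
      have e2 := mul_le_mul (hs t c1) e1 p2.le p1.le
      linarith
    · by_cases c2 : ‖t‖ ≤ 1
      · have e0 : η ^ 2 ≤ ‖t‖ ^ 2 := pow_le_pow_left₀ hη (not_le.1 c1).le 2
        have e1 : Real.exp (-(B * ‖t‖ ^ 2)) ≤ Real.exp (-(B * η ^ 2)) :=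
          Real.exp_le_exp.2 (neg_le_neg (mul_le_mul_of_nonneg_left e0 hB))
        have e2 := mul_le_mul_of_nonneg_right ((hm t c2).trans e1) p2.le
        linarith
      · have e0 : 1 ≤ ‖t‖ ^ 2 := one_le_pow₀ (not_le.1 c2).le
        have e1 : Real.exp (-(σ ^ 2 / 2 * ‖t‖ ^ 2)) ≤
            Real.exp (-(σ ^ 2 / 4)) * Real.exp (-(σ ^ 2 / 4 * ‖t‖ ^ 2)) := by
          rw [← Real.exp_add]
          refine Real.exp_le_exp.2 ?_
          have e3 := mul_le_mul_of_nonneg_left e0 h4.le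
          linarith
        have e2 := mul_le_mul_of_nonneg_right (ess_le_one n z t) p2.le
        linarith
  have i1 := ess_int A hA
  have i2 := (ess_int _ h2).const_mul (Real.exp (-(B * η ^ 2)))
  have i4 := (ess_int _ h4).const_mul (Real.exp (-(σ ^ 2 / 4)))
  have i12 : Integrable fun t : ℂ => Real.exp (-(A * ‖t‖ ^ 2)) +
      Real.exp (-(B * η ^ 2)) * Real.exp (-(σ ^ 2 / 2 * ‖t‖ ^ 2)) := i1.add i2
  have hle := integral_mono_of_nonneg (μ := (volume : Measure ℂ))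
    (f := fun t : ℂ => ‖ch n z t‖ * Real.exp (-(σ ^ 2 / 2 * ‖t‖ ^ 2)))
    (g := fun t : ℂ => Real.exp (-(A * ‖t‖ ^ 2)) +
      Real.exp (-(B * η ^ 2)) * Real.exp (-(σ ^ 2 / 2 * ‖t‖ ^ 2)) +
        Real.exp (-(σ ^ 2 / 4)) * Real.exp (-(σ ^ 2 / 4 * ‖t‖ ^ 2)))
    (Eventually.of_forall fun t => mul_nonneg (norm_nonneg _) (Real.exp_pos _).le)
    ((i1.add i2).add i4) (Eventually.of_forall hpt)
  rw [integral_add i12 i4, integral_add i1 i2, integral_const_mul, integral_const_mul,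
    ess_gauss A hA, ess_gauss _ h2, ess_gauss _ h4] at hle
  refine (mul_le_mul_of_nonneg_left hle (by positivity)).trans (le_of_eq ?_)
  have hp := Real.pi_pos.ne'
  field_simp

end Pool.Agent.T18
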