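import Pool.Agent.MP_5053af_an.T18.Defs

namespace Pool.Agent.T18

open Finset Filter Topology MeasureTheory

theorem HIT_card (n M : ℕ) (hM : 0 < M) (P : ℕ → ℕ → Prop) [∀ q a, Decidable (P q a)] :
    #{N ∈ range (n * M) | P (N / M) (N % M)} ≤ ∑ a ∈ range M, #{q ∈ range n | P q a} := by
  rw [Finset.card_eq_sum_card_fiberwise (f := fun N => N % M) (t := range M)
    (fun N _ => by simpa using Nat.mod_lt N hM)]
  refine Finset.sum_le_sum fun a _ => ?_
  refine Finset.card_le_card_of_injOn (fun N => N / M) ?_ ?_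
  · intro N hN
    simp only [coe_filter, mem_filter, mem_range, Set.mem_ofPred_eq] at hN ⊢
    obtain ⟨⟨h1, h2⟩, h3⟩ := hN
    exact ⟨(Nat.div_lt_iff_lt_mul hM).2 h1, h3 ▸ h2⟩
  · intro N hN N' hN' h
    simp only [coe_filter, mem_filter, mem_range, Set.mem_ofPred_eq] at hN hN' h
    rw [← Nat.div_add_mod N M, ← Nat.div_add_mod N' M, h, hN.2, hN'.2]

theorem HIT_nonneg (n : ℕ) (p : ℕ → Prop) : 0 ≤ fr n p := by
  unfold fr
  positivity

theorem HIT_le (n : ℕ) (hn : 0 < n) (p : ℕ → Prop) [DecidablePred p] (Q : ℝ) :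
    fr n p ≤ Q ↔ (#{N ∈ range n | p N} : ℝ) ≤ Q * n := by
  unfold fr
  rw [Finset.filter_congr_decidable]
  exact div_le_iff₀ (by exact_mod_cast hn)

theorem hit_row : HIT_s := by
  classical
  intro n M l z v R ρ Q₁ Q₂ β hn hM h1 h2 h3
  have q1 : 0 ≤ Q₁ := (HIT_nonneg _ _).trans h1
  have q2 : 0 ≤ Q₂ := (HIT_nonneg _ _).trans (h2 0)
  have hn' : (0 : ℝ) < n := by exact_mod_cast hn
  rw [HIT_le _ hn] at h1
  rw [HIT_le _ hM] at h3
  rw [HIT_le _ (Nat.mul_pos hn hM)]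
  have h2' := fun w => (HIT_le _ hn _ _).1 (h2 w)
  have key : ∀ a ∈ range M, (#{q ∈ range n | ∃ i ≤ l, ‖z q + v i a‖ ≤ R} : ℝ) ≤
      Q₁ * n + (if (∃ i ≤ l, ρ < ‖v i a‖) then ((l : ℝ) + 1) * (Q₂ * n) else 0) := by
    intro a _
    split_ifs with hb
    · have hs : ({q ∈ range n | ∃ i ≤ l, ‖z q + v i a‖ ≤ R} : Finset ℕ) ⊆
          (range (l + 1)).biUnion fun i => {q ∈ range n | ‖z q - (-v i a)‖ ≤ R} := by
        intro q hq
        simp only [mem_filter, mem_range, mem_biUnion] at hq ⊢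
        obtain ⟨hq1, i, hi, hq2⟩ := hq
        exact ⟨i, by omega, hq1, by rwa [sub_neg_eq_add]⟩
      have hc := (Finset.card_le_card hs).trans Finset.card_biUnion_le
      have hc' : (#{q ∈ range n | ∃ i ≤ l, ‖z q + v i a‖ ≤ R} : ℝ) ≤
          ∑ i ∈ range (l + 1), (#{q ∈ range n | ‖z q - (-v i a)‖ ≤ R} : ℝ) := by
        exact_mod_cast hc
      have hd : ∑ i ∈ range (l + 1), (#{q ∈ range n | ‖z q - (-v i a)‖ ≤ R} : ℝ) ≤
          ∑ _i ∈ range (l + 1), Q₂ * n := Finset.sum_le_sum fun i _ => h2' _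
      rw [Finset.sum_const, card_range, nsmul_eq_mul] at hd
      push_cast at hd
      have : 0 ≤ Q₁ * n := by positivity
      linarith
    · rw [add_zero]
      refine le_trans ?_ h1
      have hs : ({q ∈ range n | ∃ i ≤ l, ‖z q + v i a‖ ≤ R} : Finset ℕ) ⊆
          {q ∈ range n | ‖z q - 0‖ ≤ R + ρ} := by
        intro q hq
        simp only [mem_filter, mem_range] at hq ⊢
        obtain ⟨hq1, i, hi, hq2⟩ := hq
        refine ⟨hq1, ?_⟩
        have hv : ‖v i a‖ ≤ ρ := not_lt.1 fun h => hb ⟨i, hi, h⟩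
        have e : z q - 0 = z q + v i a - v i a := by ring
        rw [e]
        exact (norm_sub_le _ _).trans (add_le_add hq2 hv)
      exact_mod_cast Finset.card_le_card hs
  have hc := HIT_card n M hM fun q a => ∃ i ≤ l, ‖z q + v i a‖ ≤ R
  have hc' : (#{N ∈ range (n * M) | ∃ i ≤ l, ‖z (N / M) + v i (N % M)‖ ≤ R} : ℝ) ≤
      ∑ a ∈ range M, (#{q ∈ range n | ∃ i ≤ l, ‖z q + v i a‖ ≤ R} : ℝ) := by
    rw [← Nat.cast_sum]
    exact Nat.cast_le.2 hc
  have hs := Finset.sum_le_sum key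
  rw [Finset.sum_add_distrib, Finset.sum_const, card_range, nsmul_eq_mul, ← Finset.sum_filter,
    Finset.sum_const, nsmul_eq_mul] at hs
  have hw : 0 ≤ ((l : ℝ) + 1) * (Q₂ * n) := by positivity
  have hm := mul_le_mul_of_nonneg_right h3 hw
  push_cast
  have e : (Q₁ + β * ((l : ℝ) + 1) * Q₂) * ((n : ℝ) * M) =
      M * (Q₁ * n) + β * M * (((l : ℝ) + 1) * (Q₂ * n)) := by ring
  rw [e]
  linarith

end Pool.Agent.T18
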