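import Pool.Agent.MP_5053af_an.T18.Defs

namespace Pool.Agent.T18

open Finset Filter Topology MeasureTheory

open Classical in
theorem mea_row : MEA_s := by
  intro n p hn
  have hn' : (0 : ℝ) < n := Nat.cast_pos.mpr hn
  have hsub : {y : ℝ | y ∈ Set.Ico (0 : ℝ) 1 ∧ p ⌊(n : ℝ) * y⌋₊} ⊆
      ⋃ N ∈ ({N ∈ range n | p N} : Finset ℕ),
        Set.Ico ((N : ℝ) / n) (((N : ℝ) + 1) / n) := by
    rintro y ⟨⟨h0, h1⟩, hp⟩
    have hy : 0 ≤ (n : ℝ) * y := mul_nonneg hn'.le h0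
    refine Set.mem_iUnion₂.mpr ⟨⌊(n : ℝ) * y⌋₊, ?_, ?_, ?_⟩
    · refine Finset.mem_filter.mpr ⟨Finset.mem_range.mpr ?_, hp⟩
      rw [Nat.floor_lt hy]
      nlinarith
    · rw [div_le_iff₀ hn']
      have := Nat.floor_le hy
      linarith
    · rw [lt_div_iff₀ hn']
      have := Nat.lt_floor_add_one ((n : ℝ) * y)
      linarith
  refine (measure_mono hsub).trans ((measure_biUnion_finset_le _ _).trans ?_)
  have hone : ∀ N : ℕ, volume (Set.Ico ((N : ℝ) / n) (((N : ℝ) + 1) / n)) =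
      ENNReal.ofReal (1 / (n : ℝ)) := by
    intro N
    rw [Real.volume_Ico]
    have : ((N : ℝ) + 1) / n - (N : ℝ) / n = 1 / (n : ℝ) := by ring
    rw [this]
  rw [Finset.sum_congr rfl (fun N _ => hone N), Finset.sum_const, nsmul_eq_mul]
  unfold fr
  rw [div_eq_mul_one_div ((#{N ∈ range n | p N} : ℕ) : ℝ),
    ENNReal.ofReal_mul (Nat.cast_nonneg _), ENNReal.ofReal_natCast]

end Pool.Agent.T18
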