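import Pool.Agent.MP_5053af_an.T18.Defs

namespace Pool.Agent.T18

open Finset Filter Topology MeasureTheory

lemma ort_add (x y : ℝ) : ee (x + y) = ee x * ee y := by
  rw [ee, ee, ee, ← Complex.exp_add]
  congr 1
  push_cast
  ring

lemma ort_conj (x : ℝ) : (starRingEnd ℂ) (ee x) = ee (-x) := by
  rw [ee, ee, ← Complex.exp_conj, map_mul, Complex.conj_ofReal, Complex.conj_I]
  congr 1
  push_cast
  ring

lemma ort_pow (x : ℝ) (a : ℕ) : ee (a * x) = ee x ^ a := by
  rw [ee, ee, ← Complex.exp_nat_mul]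
  congr 1
  push_cast
  ring

lemma ort_geo (M : ℕ) (m : ℤ) (h0 : m ≠ 0) (h : |m| < M) :
    ∑ a ∈ range M, ee ((m : ℝ) * ((a : ℝ) / M)) = 0 := by
  have hM : (0 : ℝ) < M := by
    have : (0 : ℤ) < M := (abs_nonneg m).trans_lt h
    exact_mod_cast this
  have h1 : ∀ a : ℕ, ee ((m : ℝ) * ((a : ℝ) / M)) = ee ((m : ℝ) / M) ^ a := fun a => by
    rw [← ort_pow]
    congr 1
    ring
  have h2 : ee ((m : ℝ) / M) ^ M = 1 := by
    rw [← ort_pow, mul_div_cancel₀ _ hM.ne', ee, ← Complex.exp_int_mul_two_pi_mul_I m]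
    congr 1
    push_cast
    ring
  have h3 : ee ((m : ℝ) / M) ≠ 1 := fun e => by
    obtain ⟨n, hn⟩ := Complex.exp_eq_one_iff.1 e
    have h4 := congrArg Complex.im hn
    simp only [Complex.mul_im, Complex.ofReal_re, Complex.I_im, mul_one, Complex.ofReal_im,
      Complex.I_re, mul_zero, add_zero, Complex.intCast_re, Complex.mul_re, Complex.re_ofNat,
      Complex.im_ofNat, zero_mul, sub_zero, Complex.intCast_im, sub_self] at h4
    have h5 : (m : ℝ) = n * M := by
      have h6 : (m : ℝ) / M = n := mul_left_cancel₀ (Real.two_pi_pos.ne') (h4.trans (mul_comm _ _))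
      rw [← h6, div_mul_cancel₀ _ hM.ne']
    have h7 : m = n * M := by exact_mod_cast h5
    exact h0 (Int.eq_zero_of_abs_lt_dvd ⟨n, h7.trans (mul_comm _ _)⟩ h)
  rw [sum_congr rfl fun a _ => h1 a, geom_sum_eq h3, h2, sub_self, zero_div]

lemma ort_ip (t z : ℂ) : ip t z = ((starRingEnd ℂ) t * z).re := by
  simp [ip]

theorem ort_row : ORT_s := by
  intro l M t h
  have s1 : ∑ a ∈ range M, DG M l a = 0 := by
    simp only [DG, DD]
    rw [sum_comm]
    refine sum_eq_zero fun j hj => ?_
    have hj' := mem_range.1 hj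
    have := ort_geo M (j + 1) (by omega) (by rw [abs_lt]; omega)
    push_cast at this
    exact this
  have s2 : ∑ a ∈ range M, DG M l a * DG M l a = 0 := by
    simp only [DG, DD, sum_mul_sum, ← ort_add, ← add_mul]
    rw [sum_comm]
    refine sum_eq_zero fun j hj => ?_
    rw [sum_comm]
    refine sum_eq_zero fun i hi => ?_
    have hj' := mem_range.1 hj
    have hi' := mem_range.1 hi
    have := ort_geo M (j + 1 + (i + 1)) (by omega) (by rw [abs_lt]; omega)
    push_cast at this
    exact this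
  have s3 : ∑ a ∈ range M, DG M l a * (starRingEnd ℂ) (DG M l a) = M * l := by
    simp only [DG, DD, map_sum, ort_conj, sum_mul_sum, ← ort_add, ← neg_mul, ← add_mul]
    rw [sum_comm]
    have : ∀ j ∈ range l, ∑ a ∈ range M, ∑ i ∈ range l,
        ee (((j : ℝ) + 1 + -((i : ℝ) + 1)) * ((a : ℝ) / M)) = M := fun j hj => by
      rw [sum_comm, sum_eq_single j (fun i hi hij => ?_) fun h => absurd hj h]
      · simp [ee]
      · have hj' := mem_range.1 hj
        have hi' := mem_range.1 hi
        have := ort_geo M (j + 1 + -(i + 1)) (by omega) (by rw [abs_lt]; omega)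
        push_cast at this
        exact this
    rw [sum_congr rfl this, sum_const, card_range, nsmul_eq_mul, mul_comm]
  refine ⟨?_, ?_⟩
  · simp only [ort_ip]
    rw [← Complex.re_sum, ← mul_sum, s1, mul_zero, Complex.zero_re]
  · have k : ∀ z : ℂ, ip t z ^ 2 = ((‖t‖ ^ 2 : ℝ) * (z * (starRingEnd ℂ) z) +
        ((starRingEnd ℂ) t * (starRingEnd ℂ) t) * (z * z)).re / 2 := fun z => by
      rw [Complex.sq_norm, Complex.normSq_apply]
      simp only [ip, Complex.add_re, Complex.mul_re, Complex.mul_im, Complex.ofReal_re,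
        Complex.ofReal_im, Complex.conj_re, Complex.conj_im]
      ring
    simp only [k]
    rw [← sum_div, ← Complex.re_sum, sum_add_distrib, ← mul_sum, ← mul_sum, s2, s3, mul_zero,
      add_zero, Complex.re_ofReal_mul]
    simp only [Complex.mul_re, Complex.natCast_re, Complex.natCast_im, mul_zero, sub_zero]
    ring

end Pool.Agent.T18
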