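import Pool.Agent.MP_5053af_an.T18.Defs

/-! Rows PRD and CHI of campaign h18t. -/

namespace Pool.Agent.T18

open Finset Filter Topology MeasureTheory

theorem prd_sum (n M : ℕ) (f g : ℕ → ℂ) :
    ∑ N ∈ range (n * M), f (N / M) * g (N % M) = (∑ i ∈ range n, f i) * ∑ j ∈ range M, g j := by
  induction n with
  | zero => simp
  | succ n ih =>
    rw [Nat.succ_mul, sum_range_add, ih, sum_range_succ, add_mul, mul_sum (range M) g (f n)]
    congr 1
    refine sum_congr rfl fun j hj => ?_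
    have hj' := mem_range.1 hj
    have h1 : (n * M + j) / M = n := by
      rw [add_comm, Nat.add_mul_div_right _ _ (by omega), Nat.div_eq_of_lt hj', zero_add]
    have h2 : (n * M + j) % M = j := by
      rw [add_comm, Nat.add_mul_mod_self_right, Nat.mod_eq_of_lt hj']
    rw [h1, h2]

theorem prd_ip (t z w : ℂ) : ip t (z + w) = ip t z + ip t w := by
  unfold ip
  rw [Complex.add_re, Complex.add_im]
  ring

theorem prd_row : PRD_s := by
  intro b t
  induction b with
  | zero => simp [ch, dd, ZZ, ip]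
  | succ b ih =>
    rw [prod_range_succ, ← ih]
    unfold ch
    rw [div_mul_div_comm, ← prd_sum, ← Nat.cast_mul]
    simp only [dd, ZZ]
    congr 1
    refine sum_congr rfl fun N _ => ?_
    rw [prd_ip, Complex.ofReal_add, add_mul, Complex.exp_add]

theorem chi_le_one (n : ℕ) (z : ℕ → ℂ) (t : ℂ) : ‖ch n z t‖ ≤ 1 := by
  unfold ch
  rw [norm_div, Complex.norm_natCast]
  refine div_le_one_of_le₀ ((norm_sum_le _ _).trans ?_) (Nat.cast_nonneg n)
  simp [Complex.norm_exp_ofReal_mul_I]

theorem chi_prod (f : ℕ → ℝ) (b k : ℕ) (g : ℕ → ℕ) (r : ℝ) (h0 : ∀ c, 0 ≤ f c) (h1 : ∀ c, f c ≤ 1)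
    (hg : Function.Injective g) (hb : ∀ i < k, g i < b) (hr : ∀ i < k, f (g i) ≤ r) :
    ∏ c ∈ range b, f c ≤ r ^ k := by
  have hs : (range k).image g ⊆ range b := by
    intro c hc
    obtain ⟨i, hi, rfl⟩ := mem_image.1 hc
    exact mem_range.2 (hb i (mem_range.1 hi))
  calc ∏ c ∈ range b, f c ≤ ∏ c ∈ (range k).image g, f c :=
        prod_le_prod_of_subset_of_le_one hs (fun c _ => h0 c) (fun c _ _ => h1 c)
    _ = ∏ i ∈ range k, f (g i) := prod_image fun i _ j _ h => hg h
    _ ≤ ∏ _i ∈ range k, r := prod_le_prod (fun i _ => h0 _) fun i hi => hr i (mem_range.1 hi)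
    _ = r ^ k := by rw [prod_const, card_range]

theorem chi_mx (c : ℕ) : 2 * ln c < Mx c := by
  have h1 : 1 ≤ ln c := by
    unfold ln
    split_ifs
    · exact le_rfl
    · exact Nat.one_le_pow _ _ (Nat.succ_pos _)
  have h2 : 1 ≤ 2 ^ c := Nat.one_le_two_pow
  unfold Mx
  nlinarith

theorem chi_row (hP : PSI_s) (hR : PRD_s) : CHI_s := by
  intro b s t hs hb
  obtain ⟨u, rfl⟩ := Nat.exists_eq_add_of_le' hs
  have e1 : 2 ^ (u + 2) = 4 * 2 ^ u := by ring
  have e2 : 2 ^ (u + 1) = 2 * 2 ^ u := by ring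
  rw [hR, norm_prod]
  constructor
  · intro ht
    have key := chi_prod (fun c => ‖ch (Mx c) (DG (Mx c) (ln c)) t‖) b (2 ^ u) (fun i => 2 * i)
      (Real.exp (-(‖t‖ ^ 2 / 10))) (fun c => norm_nonneg _) (fun c => chi_le_one _ _ _)
      (fun i j h => by simpa using h) (fun i hi => by omega) (fun i _ => by
        have hl : ln (2 * i) = 1 := by
          unfold ln
          rw [if_pos (by omega)]
        have h := hP (ln (2 * i)) (Mx (2 * i)) t (chi_mx _) (by rw [hl]; simpa using ht)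
        refine h.trans (le_of_eq ?_)
        rw [hl, Nat.cast_one, one_mul])
    refine key.trans (le_of_eq ?_)
    rw [← Real.exp_nat_mul]
    congr 1
    push_cast
    ring
  · intro ht
    have hs0 : (0 : ℝ) < ((u + 2 : ℕ) : ℝ) ^ 12 := by positivity
    have key := chi_prod (fun c => ‖ch (Mx c) (DG (Mx c) (ln c)) t‖) b (2 ^ u)
      (fun i => 2 ^ (u + 1) + 2 * i + 1)
      (Real.exp (-(((u + 2 : ℕ) : ℝ) ^ 12 * ‖t‖ ^ 2 / 10))) (fun c => norm_nonneg _)
      (fun c => chi_le_one _ _ _) (fun i j h => by simpa using h) (fun i hi => by omega)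
      (fun i hi => by
        have hlog : Nat.log 2 (2 ^ (u + 1) + 2 * i + 1) = u + 1 :=
          Nat.log_eq_of_pow_le_of_lt_pow (by omega) (by rw [show u + 1 + 1 = u + 2 from rfl]; omega)
        have hl : ln (2 ^ (u + 1) + 2 * i + 1) = (u + 2) ^ 12 := by
          unfold ln
          rw [if_neg (by omega), hlog]
        have h := hP (ln (2 ^ (u + 1) + 2 * i + 1)) (Mx (2 ^ (u + 1) + 2 * i + 1)) t (chi_mx _)
          (by rw [hl, Nat.cast_pow]; exact (le_div_iff₀ hs0).1 ht)
        refine h.trans (le_of_eq ?_)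
        rw [hl, Nat.cast_pow])
    refine key.trans (le_of_eq ?_)
    rw [← Real.exp_nat_mul]
    congr 1
    push_cast
    ring

end Pool.Agent.T18
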