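import Pool.Agent.MP_5053af_an.T18.Defs

namespace Pool.Agent.T18

open Finset Filter Topology MeasureTheory

lemma psi_dg (M l a : ℕ) : ‖DG M l a‖ ≤ l := by
  rw [DG, DD]
  refine (norm_sum_le _ _).trans ?_
  simp only [ee, Complex.norm_exp_ofReal_mul_I, sum_const, card_range, nsmul_eq_mul, mul_one, le_refl]

lemma psi_ip (t z : ℂ) : |ip t z| ≤ ‖t‖ * ‖z‖ := by
  have h : ip t z = ((starRingEnd ℂ) t * z).re := by simp [ip]
  rw [h]
  refine (Complex.abs_re_le_norm _).trans ?_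
  rw [norm_mul, Complex.norm_conj]

theorem psi_row (hO : ORT_s) : PSI_s := by
  intro l M t h ht
  obtain ⟨o1, o2⟩ := hO l M t h
  have hM : (0 : ℝ) < M := by
    have : 0 < M := by omega
    exact_mod_cast this
  obtain ⟨u, hu⟩ : ∃ u : ℕ → ℝ, ∀ a, ip t (DG M l a) = u a := ⟨_, fun _ => rfl⟩
  have hb : ∀ a, |u a| ≤ 1 := fun a => by
    rw [← hu]
    exact (psi_ip _ _).trans ((mul_le_mul_of_nonneg_left (psi_dg M l a) (norm_nonneg t)).trans ht)
  simp only [hu] at o1 o2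
  have hp : Real.pi ^ 2 ≤ 10 := by nlinarith [Real.pi_lt_d2, Real.pi_pos]
  have hc : ∀ a b, Real.cos (u a - u b) ≤ 1 - 1 / 5 * (u a - u b) ^ 2 := fun a b => by
    have h1 : |u a - u b| ≤ Real.pi := by
      have := abs_sub (u a) (u b)
      linarith [hb a, hb b, Real.pi_gt_three]
    refine (Real.cos_le_one_sub_mul_cos_sq h1).trans (sub_le_sub_left
      (mul_le_mul_of_nonneg_right ?_ (sq_nonneg _)) _)
    rw [div_le_div_iff₀ (by norm_num) (pow_pos Real.pi_pos 2)]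
    linarith
  have h1 : ‖∑ a ∈ range M, Complex.exp ((u a : ℂ) * Complex.I)‖ ^ 2 =
      ∑ a ∈ range M, ∑ b ∈ range M, Real.cos (u a - u b) := by
    rw [Complex.sq_norm, Complex.normSq_apply, Complex.re_sum, Complex.im_sum]
    simp only [Complex.exp_ofReal_mul_I_re, Complex.exp_ofReal_mul_I_im, sum_mul_sum,
      ← sum_add_distrib, Real.cos_sub]
  have h2 : ∑ a ∈ range M, ∑ b ∈ range M, (1 - 1 / 5 * (u a - u b) ^ 2) =
      (M : ℝ) ^ 2 * (1 - l * ‖t‖ ^ 2 / 5) := by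
    have k : ∀ a, ∑ b ∈ range M, (1 - 1 / 5 * (u a - u b) ^ 2) =
        (M - 1 / 5 * (M * l * ‖t‖ ^ 2 / 2)) - M / 5 * u a ^ 2 := fun a => by
      rw [sum_congr rfl (g := fun b => (1 - 1 / 5 * u a ^ 2) + 2 / 5 * u a * u b - 1 / 5 * u b ^ 2)
        fun b _ => by ring, sum_sub_distrib, sum_add_distrib, ← mul_sum, ← mul_sum, o1, o2,
        sum_const, card_range, nsmul_eq_mul]
      ring
    rw [sum_congr rfl fun a _ => k a, sum_sub_distrib, ← mul_sum, o2, sum_const, card_range,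
      nsmul_eq_mul]
    ring
  have h3 : ‖∑ a ∈ range M, Complex.exp ((u a : ℂ) * Complex.I)‖ ^ 2 ≤
      (M * Real.exp (-((l : ℝ) * ‖t‖ ^ 2 / 10))) ^ 2 := by
    rw [h1, mul_pow, ← Real.exp_nat_mul]
    refine (sum_le_sum fun a _ => sum_le_sum fun b _ => hc a b).trans (h2.le.trans
      (mul_le_mul_of_nonneg_left ?_ (sq_nonneg _)))
    have := Real.add_one_le_exp (((2 : ℕ) : ℝ) * -((l : ℝ) * ‖t‖ ^ 2 / 10))
    refine le_trans (le_of_eq ?_) this
    push_cast
    ring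
  simp only [ch, hu]
  rw [norm_div, Complex.norm_natCast, div_le_iff₀ hM, mul_comm]
  exact (pow_le_pow_iff_left₀ (norm_nonneg _) (by positivity) two_ne_zero).1 h3

end Pool.Agent.T18
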