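import Pool.Agent.MP_5053af_an.T18.Defs

namespace Pool.Agent.T18

open Finset Filter Topology MeasureTheory

/-- Block and position inside the block of the `m`-th frequency. -/
noncomputable def seq_st : ℕ → ℕ × ℕ
  | 0 => (0, 0)
  | m + 1 => if (seq_st m).2 + 1 < ln (seq_st m).1 then ((seq_st m).1, (seq_st m).2 + 1)
      else ((seq_st m).1 + 1, 0)

theorem seq_ln_pos (b : ℕ) : 0 < ln b := by
  unfold ln
  split_ifs
  · exact Nat.one_pos
  · positivity

theorem seq_ln_le (b k : ℕ) (h : b ≤ k) : ln b ≤ (Nat.log 2 k + 1) ^ 12 := by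
  unfold ln
  split_ifs
  · exact Nat.one_le_pow _ _ (Nat.succ_pos _)
  · exact Nat.pow_le_pow_left (Nat.succ_le_succ (Nat.log_mono_right h)) _

theorem seq_dd_pos (b : ℕ) : 0 < dd b := by
  induction b with
  | zero => exact Nat.one_pos
  | succ b ih =>
    have h := seq_ln_pos b
    show 0 < dd b * Mx b
    unfold Mx
    positivity

theorem seq_step (m : ℕ) :
    ((seq_st m).2 + 1 < ln (seq_st m).1 ∧ (seq_st (m + 1)).1 = (seq_st m).1 ∧
        (seq_st (m + 1)).2 = (seq_st m).2 + 1) ∨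
      (ln (seq_st m).1 ≤ (seq_st m).2 + 1 ∧ (seq_st (m + 1)).1 = (seq_st m).1 + 1 ∧
        (seq_st (m + 1)).2 = 0) := by
  by_cases h : (seq_st m).2 + 1 < ln (seq_st m).1
  · left
    have e : seq_st (m + 1) = ((seq_st m).1, (seq_st m).2 + 1) := by
      rw [seq_st, if_pos h]
    exact ⟨h, by rw [e], by rw [e]⟩
  · right
    have e : seq_st (m + 1) = ((seq_st m).1 + 1, 0) := by
      rw [seq_st, if_neg h]
    exact ⟨not_lt.mp h, by rw [e], by rw [e]⟩

theorem seq_lt (m : ℕ) : (seq_st m).2 < ln (seq_st m).1 := by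
  cases m with
  | zero => exact seq_ln_pos 0
  | succ m =>
    rcases seq_step m with ⟨h, e1, e2⟩ | ⟨_, e1, e2⟩
    · rw [e1, e2]; exact h
    · rw [e2]; exact seq_ln_pos _

theorem seq_b_le (m : ℕ) : (seq_st m).1 ≤ m := by
  induction m with
  | zero => exact le_rfl
  | succ m ih =>
    rcases seq_step m with ⟨_, e1, _⟩ | ⟨_, e1, _⟩ <;> omega

theorem seq_mono : Monotone fun m => (seq_st m).1 := by
  refine monotone_nat_of_le_succ fun m => ?_
  rcases seq_step m with ⟨_, e1, _⟩ | ⟨_, e1, _⟩ <;> omega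

theorem seq_next (j : ℕ) : ∀ m, ln (seq_st m).1 ≤ (seq_st m).2 + j →
    ∃ m', (seq_st m).1 + 1 ≤ (seq_st m').1 := by
  induction j with
  | zero =>
    intro m h
    have := seq_lt m
    omega
  | succ j ih =>
    intro m h
    rcases seq_step m with ⟨_, e1, e2⟩ | ⟨_, e1, _⟩
    · obtain ⟨m', hm'⟩ := ih (m + 1) (by rw [e1, e2]; omega)
      exact ⟨m', by omega⟩
    · exact ⟨m + 1, by omega⟩

theorem seq_unb (B : ℕ) : ∃ m, B ≤ (seq_st m).1 := by
  induction B with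
  | zero => exact ⟨0, Nat.zero_le _⟩
  | succ B ih =>
    obtain ⟨m, hm⟩ := ih
    obtain ⟨m', hm'⟩ := seq_next (ln (seq_st m).1) m (by omega)
    exact ⟨m', by omega⟩

theorem seq_ratio (k : ℕ) :
    (1 + 1 / ((Nat.log 2 k : ℝ) + 1) ^ 12) * ((dd (seq_st k).1 * ((seq_st k).2 + 1) : ℕ) : ℝ) ≤
      ((dd (seq_st (k + 1)).1 * ((seq_st (k + 1)).2 + 1) : ℕ) : ℝ) := by
  have hL : (0 : ℝ) < ((Nat.log 2 k : ℝ) + 1) ^ 12 := by positivity
  have h1 : (seq_st k).2 + 1 ≤ (Nat.log 2 k + 1) ^ 12 :=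
    (Nat.succ_le_of_lt (seq_lt k)).trans (seq_ln_le _ _ (seq_b_le k))
  have h1' : (((seq_st k).2 : ℝ) + 1) ≤ ((Nat.log 2 k : ℝ) + 1) ^ 12 := by exact_mod_cast h1
  have h2 : 1 / ((Nat.log 2 k : ℝ) + 1) ^ 12 * (((seq_st k).2 : ℝ) + 1) ≤ 1 := by
    rw [one_div, inv_mul_le_iff₀ hL]
    linarith
  have hd : (0 : ℝ) ≤ dd (seq_st k).1 := Nat.cast_nonneg _
  have key : (1 + 1 / ((Nat.log 2 k : ℝ) + 1) ^ 12) *
      ((dd (seq_st k).1 * ((seq_st k).2 + 1) : ℕ) : ℝ) ≤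
      ((dd (seq_st k).1 * ((seq_st k).2 + 1 + 1) : ℕ) : ℝ) := by
    push_cast
    nlinarith [mul_le_mul_of_nonneg_left h2 hd]
  refine key.trans (Nat.cast_le.mpr ?_)
  rcases seq_step k with ⟨_, e1, e2⟩ | ⟨_, e1, e2⟩
  · rw [e1, e2]
  · rw [e1, e2]
    have h3 := seq_lt k
    have h4 : 1 ≤ 2 ^ (seq_st k).1 := Nat.one_le_two_pow
    have h5 : (seq_st k).2 + 1 + 1 ≤ Mx (seq_st k).1 := by
      unfold Mx
      nlinarith [Nat.mul_le_mul_right (ln (seq_st k).1 ^ 2) h4, seq_ln_pos (seq_st k).1]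
    show dd (seq_st k).1 * ((seq_st k).2 + 1 + 1) ≤ dd (seq_st k).1 * Mx (seq_st k).1 * (0 + 1)
    rw [Nat.zero_add, Nat.mul_one]
    exact Nat.mul_le_mul_left _ h5

theorem seq_sum (y : ℝ) (m : ℕ) :
    ∑ k ∈ range m, ee (((dd (seq_st k).1 * ((seq_st k).2 + 1) : ℕ) : ℝ) * y) =
      TT (seq_st m).1 y + DD (seq_st m).2 ((dd (seq_st m).1 : ℝ) * y) := by
  induction m with
  | zero =>
    show _ = TT 0 y + DD 0 _
    simp [TT, DD]
  | succ m ih =>
    have hD : DD ((seq_st m).2 + 1) ((dd (seq_st m).1 : ℝ) * y) =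
        DD (seq_st m).2 ((dd (seq_st m).1 : ℝ) * y) +
          ee (((dd (seq_st m).1 * ((seq_st m).2 + 1) : ℕ) : ℝ) * y) := by
      have e : (((dd (seq_st m).1 * ((seq_st m).2 + 1) : ℕ) : ℝ) * y) =
          (((seq_st m).2 : ℝ) + 1) * ((dd (seq_st m).1 : ℝ) * y) := by
        push_cast
        ring
      rw [e]
      unfold DD
      rw [Finset.sum_range_succ]
    rw [Finset.sum_range_succ, ih, add_assoc, ← hD]
    rcases seq_step m with ⟨_, e1, e2⟩ | ⟨h, e1, e2⟩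
    · rw [e1, e2]
    · have h3 := seq_lt m
      have e3 : (seq_st m).2 + 1 = ln (seq_st m).1 := by omega
      have e4 : ∀ z : ℝ, DD 0 z = 0 := fun z => by simp [DD]
      rw [e1, e2, e3, e4, add_zero]
      unfold TT
      rw [Finset.sum_range_succ]

theorem seq_row : SEQ_s := by
  refine ⟨fun k => dd (seq_st k).1 * ((seq_st k).2 + 1), fun k => (seq_st k).1,
    fun k => (seq_st k).2, fun k => Nat.mul_pos (seq_dd_pos _) (Nat.succ_pos _), seq_ratio,
    tendsto_atTop_atTop_of_monotone seq_mono seq_unb, fun m => ⟨(seq_lt m).le, fun y => ?_⟩⟩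
  exact seq_sum y m

end Pool.Agent.T18
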