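import Pool.Agent.MP_5053af_an.T18.Defs

/-! Row SU1: summability of the block bounds. -/

namespace Pool.Agent.T18

open Finset Filter Topology MeasureTheory

theorem su1_exp (s : ℕ) {y : ℝ} (hy : 2 * (s : ℝ) ≤ y) :
    (2 : ℝ) ^ s * Real.exp (-y) ≤ (1 / 2) ^ s := by
  have h1 : (2 : ℝ) ≤ Real.exp 1 := by have := Real.add_one_le_exp 1; linarith
  have h2 : (2 : ℝ) ^ s * 2 ^ s ≤ Real.exp y := by
    have h3 : (2 : ℝ) ^ (2 * s) ≤ Real.exp 1 ^ (2 * s) := pow_le_pow_left₀ (by norm_num) h1 _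
    rw [← Real.exp_nat_mul, two_mul, pow_add] at h3
    refine h3.trans (Real.exp_le_exp.2 ?_)
    push_cast
    linarith
  rw [Real.exp_neg, one_div, inv_pow, ← div_eq_mul_inv, ← one_div,
    div_le_div_iff₀ (Real.exp_pos y) (by positivity), one_mul]
  exact h2

theorem su1_big (s : ℕ) {x : ℝ} (hx : 0 < x) :
    (2 : ℝ) ^ s * Real.exp (-(2 ^ s / (40 * x ^ 24))) ≤ 3200 * x ^ 48 * (1 / 2) ^ s := by
  have hp : (0 : ℝ) < 2 ^ s := by positivity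
  have hy : (0 : ℝ) < 2 ^ s / (40 * x ^ 24) := by positivity
  have h1 := Real.quadratic_le_exp_of_nonneg hy.le
  have h2 : (2 ^ s / (40 * x ^ 24)) ^ 2 / 2 ≤ Real.exp (2 ^ s / (40 * x ^ 24)) := by linarith
  have h3 : Real.exp (-(2 ^ s / (40 * x ^ 24))) ≤ ((2 ^ s / (40 * x ^ 24)) ^ 2 / 2)⁻¹ := by
    rw [Real.exp_neg]
    exact inv_anti₀ (by positivity) h2
  refine (mul_le_mul_of_nonneg_left h3 hp.le).trans (le_of_eq ?_)
  rw [one_div, inv_pow]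
  field_simp
  ring

theorem su1_poly {x : ℝ} (hx : 1 ≤ x) : 2 / x ^ 4 * ((x + 1) ^ 12 + 1) ≤ 8194 * x ^ 8 := by
  have h0 : 0 < x := by linarith
  have h1 : (x + 1) ^ 12 ≤ (2 * x) ^ 12 := pow_le_pow_left₀ (by linarith) (by linarith) _
  have h2 : 1 ≤ x ^ 12 := one_le_pow₀ hx
  have h3 : (x + 1) ^ 12 + 1 ≤ 4097 * x ^ 12 := by
    rw [mul_pow] at h1
    norm_num at h1
    linarith
  refine (mul_le_mul_of_nonneg_left h3 (by positivity)).trans (le_of_eq ?_)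
  field_simp
  ring

theorem su1_bound (s : ℕ) (hs : 8 ≤ s) : 2 ^ s * UU s ≤
    327920 * (1 / (s : ℝ) ^ 2) + (6400 * ((s : ℝ) ^ 48 * (1 / 2) ^ s) + 4 * (1 / 2) ^ s +
      52441600 * ((s : ℝ) ^ 56 * (1 / 2) ^ s) + 32776 * ((s : ℝ) ^ 8 * (1 / 2) ^ s)) := by
  have hx : (8 : ℝ) ≤ s := by exact_mod_cast hs
  have h0 : (0 : ℝ) < s := by linarith
  have h1 : (1 : ℝ) ≤ s := by linarith
  have hp : (0 : ℝ) < 2 ^ s := by positivity
  have a1 := su1_big s h0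
  have a2 : (2 : ℝ) ^ s * Real.exp (-((s : ℝ) ^ 8)) ≤ (1 / 2) ^ s := by
    refine su1_exp s ?_
    have b1 : (s : ℝ) ^ 2 ≤ (s : ℝ) ^ 8 := pow_le_pow_right₀ h1 (by norm_num)
    nlinarith
  have a3 : (2 : ℝ) ^ s * Real.exp (-((s : ℝ) ^ 2 / 4)) ≤ (1 / 2) ^ s :=
    su1_exp s (by nlinarith)
  have a4 := su1_poly h1
  have a5 : 160 / (s : ℝ) ^ 4 ≤ 160 * (1 / (s : ℝ) ^ 2) := by
    rw [mul_one_div]
    exact div_le_div_of_nonneg_left (by norm_num) (by positivity)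
      (pow_le_pow_right₀ h1 (by norm_num))
  have e : 2 ^ s * UU s = (160 / (s : ℝ) ^ 4 +
      2 * (2 ^ s * Real.exp (-(2 ^ s / (40 * (s : ℝ) ^ 24)))) +
      4 * (2 ^ s * Real.exp (-((s : ℝ) ^ 8)))) + 2 / (s : ℝ) ^ 4 * (((s : ℝ) + 1) ^ 12 + 1) *
      (40 / (s : ℝ) ^ 10 + 2 * (2 ^ s * Real.exp (-(2 ^ s / (40 * (s : ℝ) ^ 24)))) +
        4 * (2 ^ s * Real.exp (-((s : ℝ) ^ 2 / 4)))) := by
    unfold UU
    generalize Real.exp (-(2 ^ s / (40 * (s : ℝ) ^ 24))) = u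
    generalize Real.exp (-((s : ℝ) ^ 8)) = v
    generalize Real.exp (-((s : ℝ) ^ 2 / 4)) = w
    generalize ((s : ℝ) + 1) ^ 12 + 1 = z
    field_simp
  have a6 : 2 / (s : ℝ) ^ 4 * (((s : ℝ) + 1) ^ 12 + 1) *
      (40 / (s : ℝ) ^ 10 + 2 * (2 ^ s * Real.exp (-(2 ^ s / (40 * (s : ℝ) ^ 24)))) +
        4 * (2 ^ s * Real.exp (-((s : ℝ) ^ 2 / 4)))) ≤ 8194 * (s : ℝ) ^ 8 *
      (40 / (s : ℝ) ^ 10 + 2 * (3200 * (s : ℝ) ^ 48 * (1 / 2) ^ s) + 4 * (1 / 2) ^ s) :=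
    mul_le_mul a4 (by linarith) (by positivity) (by positivity)
  have e2 : 8194 * (s : ℝ) ^ 8 *
      (40 / (s : ℝ) ^ 10 + 2 * (3200 * (s : ℝ) ^ 48 * (1 / 2) ^ s) + 4 * (1 / 2) ^ s) =
      327760 * (1 / (s : ℝ) ^ 2) + 52441600 * ((s : ℝ) ^ 56 * (1 / 2) ^ s) +
        32776 * ((s : ℝ) ^ 8 * (1 / 2) ^ s) := by
    generalize ((1 : ℝ) / 2) ^ s = r
    field_simp
    ring
  rw [e]
  rw [e2] at a6
  linarith

theorem su1_row : SU1_s := by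
  have hg : ∀ k : ℕ, Summable fun s : ℕ => (s : ℝ) ^ k * (1 / 2 : ℝ) ^ s := fun k =>
    summable_pow_mul_geometric_of_norm_lt_one k (by rw [Real.norm_eq_abs, abs_lt]; constructor <;> norm_num)
  have h2 : Summable fun s : ℕ => 1 / (s : ℝ) ^ 2 := Real.summable_one_div_nat_pow.2 (by norm_num)
  have h := (h2.mul_left 327920).add (((((hg 48).mul_left 6400).add
    (summable_geometric_two.mul_left 4)).add ((hg 56).mul_left 52441600)).add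
      ((hg 8).mul_left 32776))
  refine Summable.of_norm_bounded_eventually_nat h (eventually_atTop.2 ⟨8, fun s hs => ?_⟩)
  have h3 : 0 ≤ 2 ^ s * UU s := by
    unfold UU
    positivity
  rw [Real.norm_eq_abs, abs_of_nonneg h3]
  exact su1_bound s hs

end Pool.Agent.T18
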