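import Pool.Agent.MP_5053af_an.T18.Defs

namespace Pool.Agent.T18

open Finset Filter Topology MeasureTheory

theorem su2_pow (U : ℕ → ℝ) (m : ℕ) :
    ∑ b ∈ range (2 ^ m), U (Nat.log 2 b) = U 0 + ∑ s ∈ range m, 2 ^ s * U s := by
  induction m with
  | zero => simp
  | succ m ih =>
    have h1 : ∑ b ∈ range (2 ^ m), U (Nat.log 2 (2 ^ m + b)) = ∑ _b ∈ range (2 ^ m), U m := by
      refine sum_congr rfl fun b hb => ?_
      rw [mem_range] at hb
      rw [Nat.log_eq_of_pow_le_of_lt_pow (Nat.le_add_right _ _) (by rw [pow_succ]; omega)]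
    rw [show 2 ^ (m + 1) = 2 ^ m + 2 ^ m by rw [pow_succ]; omega, sum_range_add, ih, h1,
      sum_range_succ, sum_const, card_range, nsmul_eq_mul]
    push_cast
    ring

theorem su2_row : SU2_s := by
  intro U h0 hs
  refine summable_of_sum_range_le (c := U 0 + ∑' s : ℕ, 2 ^ s * U s) (fun b => h0 _) fun n => ?_
  calc ∑ b ∈ range n, U (Nat.log 2 b) ≤ ∑ b ∈ range (2 ^ n), U (Nat.log 2 b) :=
        sum_le_sum_of_subset_of_nonneg (range_mono Nat.lt_two_pow_self.le) fun b _ _ => h0 _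
    _ = U 0 + ∑ s ∈ range n, 2 ^ s * U s := su2_pow U n
    _ ≤ _ := by
      have := hs.sum_le_tsum (range n) fun s _ => mul_nonneg (by positivity) (h0 s)
      linarith

end Pool.Agent.T18
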