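import Pool.Agent.MP_5053af_an.T18.Defs

namespace Pool.Agent.T18

open Finset Filter Topology MeasureTheory

theorem top_per (n : ℕ) (y : ℝ) (q : ℤ) : ee ((n : ℝ) * (y + q)) = ee ((n : ℝ) * y) := by
  unfold ee
  have h : (((2 * Real.pi * ((n : ℝ) * (y + q)) : ℝ) : ℂ) * Complex.I) =
      ((2 * Real.pi * ((n : ℝ) * y) : ℝ) : ℂ) * Complex.I +
        (((n : ℤ) * q : ℤ) : ℂ) * (2 * Real.pi * Complex.I) := by
    push_cast
    ring
  rw [h, Complex.exp_add, Complex.exp_int_mul_two_pi_mul_I, mul_one]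

theorem top_row (hB : BC_s) (hS : SEQ_s) (hC : SCL_s) : TOP_s := by
  obtain ⟨n, b, i, h0, hg, hb, hm⟩ := hS
  refine ⟨n, h0, hg, ?_⟩
  have hlog : Tendsto (Nat.log 2) atTop atTop :=
    tendsto_atTop_atTop_of_monotone Nat.log_monotone fun k =>
      ⟨2 ^ k, (Nat.log_pow (by norm_num) k).ge⟩
  have hL : Tendsto (fun m => (Nat.log 2 (b m) : ℝ) - 2) atTop atTop :=
    tendsto_atTop_add_const_right _ (-2) (tendsto_natCast_atTop_atTop.comp (hlog.comp hb))
  have h1 := hC (fun y => Tendsto (fun m => ‖∑ k ∈ range m, ee ((n k : ℝ) * y)‖) atTop atTop)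
    (fun y q hy => by simpa only [top_per] using hy) (by
      filter_upwards [hB] with y hy hy0
      refine tendsto_atTop_mono' _ ?_ hL
      filter_upwards [hb.eventually (hy hy0)] with m h
      rw [(hm m).2 y]
      exact (h _ (hm m).1).le)
  filter_upwards [h1] with x hx
  refine hx.congr fun m => congrArg _ (Finset.sum_congr rfl fun k _ => ?_)
  unfold ee
  have hp : (Real.pi : ℂ) ≠ 0 := Complex.ofReal_ne_zero.2 Real.pi_ne_zero
  refine congrArg _ ?_
  push_cast
  field_simp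

end Pool.Agent.T18
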