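import Pool.Agent.MP_5053af_an.T18.AP1
import Pool.Agent.MP_5053af_an.T18.APP
import Pool.Agent.MP_5053af_an.T18.BC
import Pool.Agent.MP_5053af_an.T18.BLK
import Pool.Agent.MP_5053af_an.T18.DIR
import Pool.Agent.MP_5053af_an.T18.ES1
import Pool.Agent.MP_5053af_an.T18.ESS
import Pool.Agent.MP_5053af_an.T18.HIT
import Pool.Agent.MP_5053af_an.T18.MEA
import Pool.Agent.MP_5053af_an.T18.ORT
import Pool.Agent.MP_5053af_an.T18.PRD
import Pool.Agent.MP_5053af_an.T18.PSI
import Pool.Agent.MP_5053af_an.T18.SCL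
import Pool.Agent.MP_5053af_an.T18.SEQ
import Pool.Agent.MP_5053af_an.T18.SU1
import Pool.Agent.MP_5053af_an.T18.SU2
import Pool.Agent.MP_5053af_an.T18.TOP

namespace Pool.Agent.T18

theorem top : TOP_s :=
  top_row (bc_row (blk_row (chi_row (psi_row ort_row) prd_row) (ess_row es1_row) dir_row hit_row)
    su1_row su2_row (APP_row AP1_row) mea_row) seq_row scl_row

end Pool.Agent.T18
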