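import Pool.Agent.MP_5053af_an.T18.Defs

namespace Pool.Agent.T18

open Finset Filter Topology MeasureTheory

theorem scl_row : SCL_s := by
  intro p hp h
  have h1 : ∀ q : ℤ, ∀ᵐ y : ℝ, y - q ∈ Set.Ico (0 : ℝ) 1 → p (y - q) := fun q =>
    (measurePreserving_sub_right volume (q : ℝ)).quasiMeasurePreserving.ae h
  have h2 : ∀ᵐ y : ℝ, p y := by
    filter_upwards [ae_all_iff.2 h1] with y hy
    have := hp _ ⌊y⌋ (hy ⌊y⌋ ⟨Int.fract_nonneg y, Int.fract_lt_one y⟩)
    rwa [sub_add_cancel] at this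
  have h3 := (Measure.quasiMeasurePreserving_smul (volume : Measure ℝ)
    (r := (2 * Real.pi)⁻¹) (by positivity)).ae h2
  filter_upwards [h3] with x hx
  rwa [smul_eq_mul, mul_comm, ← div_eq_mul_inv] at hx

end Pool.Agent.T18
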